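import Pool.Agent.W_MP_415091_an.Chain

/-!
There are positive parameters `α, A, B` and nonnegative initial values for which the solution of
`x_{n+1} = (α + x_{n-2}) / (A + B x_n + x_{n-1})` is bounded but converges neither to the
equilibrium nor to any periodic solution.  Indices are shifted by two: `x 0, x 1, x 2` are the
initial values.
-/

namespace Pool.Agent.Results.MP_415091_an.BoundedNotConvergent

open Filter Topology Set Pool.Agent.W_MP_415091_an

/-- `x` is a solution with nonnegative initial values `x 0, x 1, x 2`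
(the indices are shifted by two). -/
def IsSolution (α A B : ℝ) (x : ℕ → ℝ) : Prop :=
  (0 ≤ x 0 ∧ 0 ≤ x 1 ∧ 0 ≤ x 2) ∧
    ∀ n, x (n + 3) = (α + x n) / (A + B * x (n + 2) + x (n + 1))

/-- The positive equilibrium. -/
noncomputable def equilibrium (α A B : ℝ) : ℝ :=
  (1 - A + Real.sqrt ((1 - A) ^ 2 + 4 * α * (B + 1))) / (2 * (B + 1))

theorem result : ∃ α A B : ℝ, 0 < α ∧ 0 < A ∧ 0 < B ∧ ∃ x : ℕ → ℝ, IsSolution α A B x ∧
    BddAbove (range x) ∧ ¬ Tendsto x atTop (𝓝 (equilibrium α A B)) ∧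
    ∀ p : ℕ → ℝ, (∃ k, 1 ≤ k ∧ ∀ n, p (n + k) = p n) →
      ¬ Tendsto (fun n => x n - p n) atTop (𝓝 0) := by
  obtain ⟨p, hp⟩ := exists_orbit (fun j => decide (IsSquare j))
  have h3 : ∀ x : ℝ, 0 < (3 : ℝ) ^ x := fun x => Real.rpow_pos_of_pos (by norm_num) x
  -- the orbit at the times `13 j`
  have hbox : ∀ j, ((Phi^[13 * j] p).1, (Phi^[13 * j + 1] p).1, (Phi^[13 * j + 2] p).1) ∈
      Box (decide (IsSquare j)) := by
    intro j
    have h := hp j
    unfold G at h
    rw [← Function.iterate_mul, Phi_iter p (13 * j)] at h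
    exact h
  set x : ℕ → ℝ := fun n => (3 : ℝ) ^ (Phi^[n] p).1 with hx
  have hxpos : ∀ n, 0 < x n := fun n => h3 _
  set α : ℝ := (3 : ℝ) ^ (2000 : ℝ) with hα
  set A : ℝ := (3 : ℝ) ^ (-100000 : ℝ) with hA
  set B : ℝ := (3 : ℝ) ^ (-10000 : ℝ) with hB
  have hαpos : 0 < α := h3 _
  have hApos : 0 < A := h3 _
  have hBpos : 0 < B := h3 _
  have hrec : ∀ n, x (n + 3) = (α + x n) / (A + B * x (n + 2) + x (n + 1)) := by
    intro n
    have h1 : 0 < α + x n := add_pos hαpos (hxpos n)
    have h2 : 0 < A + B * x (n + 2) + x (n + 1) :=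
      add_pos (add_pos hApos (mul_pos hBpos (hxpos _))) (hxpos _)
    have h4 : x (n + 3) = (3 : ℝ) ^ (nx (Phi^[n] p).1 (Phi^[n + 1] p).1 (Phi^[n + 2] p).1) := by
      rw [← Phi_iter_rec p n]
    rw [h4]
    unfold nx
    rw [Real.rpow_sub (by norm_num), Real.rpow_logb (by norm_num) (by norm_num) h1,
      Real.rpow_logb (by norm_num) (by norm_num) h2]
  -- boundedness
  have hbd : ∀ i : ℕ, ∃ C, 0 ≤ C ∧ ∀ j, x (13 * j + i) ≤ C := by
    have hb : ∀ j, (Phi^[13 * j] p).1 ≤ 12001 ∧ (Phi^[13 * j + 1] p).1 ≤ 12001 ∧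
        (Phi^[13 * j + 2] p).1 ≤ 12001 := by
      intro j
      have h := hbox j
      have h1 := lo_ge (decide (IsSquare j))
      have h2 := hi_le (decide (IsSquare j))
      obtain ⟨g1, g2, g3, g4, g5, g6⟩ := h
      simp only at g1 g2 g3 g4 g5 g6
      refine ⟨?_, ?_, ?_⟩ <;> linarith
    have hC : (0 : ℝ) ≤ (3 : ℝ) ^ (12001 : ℝ) := (h3 _).le
    intro i
    induction i using Nat.strong_induction_on with
    | _ i ih =>
      by_cases hi : i < 3
      · refine ⟨(3 : ℝ) ^ (12001 : ℝ), hC, fun j => ?_⟩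
        apply rpow_mono
        obtain ⟨b0, b1, b2⟩ := hb j
        interval_cases i
        · exact b0
        · exact b1
        · exact b2
      · obtain ⟨i', rfl⟩ : ∃ i', i = i' + 3 := ⟨i - 3, by omega⟩
        obtain ⟨C, hC0, hC1⟩ := ih i' (by omega)
        refine ⟨(α + C) / A, by positivity, fun j => ?_⟩
        rw [← add_assoc, hrec]
        apply div_le_div₀ (by positivity) (by linarith [hC1 j]) hApos
        have := mul_pos hBpos (hxpos (13 * j + i' + 2))
        have := hxpos (13 * j + i' + 1)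
        linarith
  choose C hC0 hC using hbd
  have hbdd : BddAbove (range x) := by
    refine ⟨∑ i ∈ Finset.range 13, C i, ?_⟩
    rintro _ ⟨n, rfl⟩
    have h1 : x n ≤ C (n % 13) := by
      have := hC (n % 13) (n / 13)
      rwa [Nat.div_add_mod n 13] at this
    exact h1.trans (Finset.single_le_sum (f := C) (fun i _ => hC0 i)
      (Finset.mem_range.2 (Nat.mod_lt n (by norm_num))))
  -- no convergence to a periodic sequence
  have hper : ∀ q : ℕ → ℝ, (∃ k, 1 ≤ k ∧ ∀ n, q (n + k) = q n) →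
      ¬ Tendsto (fun n => x n - q n) atTop (𝓝 0) := by
    rintro q ⟨k, hk1, hk⟩ hlim
    have hq : ∀ m n, q (n + m * k) = q n := by
      intro m
      induction m with
      | zero => intro n; simp
      | succ m ih =>
        intro n
        rw [Nat.succ_mul, ← add_assoc, hk, ih]
    have hdiff : Tendsto (fun n => x n - x (n + 13 * k)) atTop (𝓝 0) := by
      have h1 : Tendsto (fun n => x (n + 13 * k) - q (n + 13 * k)) atTop (𝓝 0) :=
        hlim.comp (tendsto_add_atTop_nat (13 * k))
      have h2 := hlim.sub h1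
      rw [sub_zero] at h2
      refine h2.congr (fun n => ?_)
      rw [hq]
      ring
    have hsub : Tendsto (fun N : ℕ => 13 * (N * N)) atTop atTop := by
      refine tendsto_atTop_mono (fun N => ?_) tendsto_id
      change N ≤ 13 * (N * N)
      nlinarith [Nat.zero_le N, Nat.le_mul_self N]
    have h0 := hdiff.comp hsub
    have hc0 : (0 : ℝ) < (3 : ℝ) ^ (11100 : ℝ) - (3 : ℝ) ^ (10940 : ℝ) := by
      have : (3 : ℝ) ^ (10940 : ℝ) < (3 : ℝ) ^ (11100 : ℝ) :=
        Real.rpow_lt_rpow_of_exponent_lt (by norm_num) (by norm_num)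
      exact sub_pos.2 this
    have hev := (h0.eventually (gt_mem_nhds hc0)).and (eventually_gt_atTop k)
    obtain ⟨N, hN, hkN⟩ := hev.exists
    simp only [Function.comp] at hN
    have hs1 : decide (IsSquare (N * N)) = true := by simp
    have hs2 : decide (IsSquare (N * N + k)) = false := by
      rw [decide_eq_false_iff_not]
      rintro ⟨r, hr⟩
      have h1 : N < r := by nlinarith
      have h2 : r < N + 1 := by nlinarith
      omega
    have g1 := hbox (N * N)
    rw [hs1] at g1
    have g2 := hbox (N * N + k)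
    rw [hs2] at g2
    have e1 : (11100 : ℝ) ≤ (Phi^[13 * (N * N)] p).1 := by
      have := g1.1
      simpa [lo] using this
    have e2 : (Phi^[13 * (N * N + k)] p).1 ≤ 10940 := by
      have := g2.2.1
      simpa [hi] using this
    have f1 : (3 : ℝ) ^ (11100 : ℝ) ≤ x (13 * (N * N)) := rpow_mono e1
    have f2 : x (13 * (N * N) + 13 * k) ≤ (3 : ℝ) ^ (10940 : ℝ) := by
      rw [← mul_add]
      exact rpow_mono e2
    exact absurd (sub_le_sub f1 f2) (not_le.2 hN)
  refine ⟨α, A, B, hαpos, hApos, hBpos, x, ⟨⟨(hxpos 0).le, (hxpos 1).le, (hxpos 2).le⟩, hrec⟩,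
    hbdd, ?_, hper⟩
  intro hlim
  refine hper (fun _ => equilibrium α A B) ⟨1, le_rfl, fun _ => rfl⟩ ?_
  have := hlim.sub_const (equilibrium α A B)
  rwa [sub_self] at this

end Pool.Agent.Results.MP_415091_an.BoundedNotConvergent
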